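import Pool.Agent.LUB.Stmts

/-!
# Squad LUB, row UNI: a power of a unit is congruent to one
-/

set_option autoImplicit false

open Polynomial

namespace Pool.Agent.LUB.H52

open Pool.Agent.LUB

theorem uni : UniStmt := by
  intro p hp F u hF ⟨a, b, c, habc⟩
  have hq : NeZero (p ^ 2) := ⟨pow_ne_zero 2 hp.out.ne_zero⟩
  set f : ℤ →+* ZMod (p ^ 2) := Int.castRingHom (ZMod (p ^ 2)) with hf
  set G : (ZMod (p ^ 2))[X] := F.map f with hG
  have hGm : G.Monic := hF.map f
  have hfin1 : Module.Finite (ZMod (p ^ 2)) (AdjoinRoot G) := hGm.finite_adjoinRoot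
  have hfin : Finite (AdjoinRoot G) := Module.finite_of_finite (ZMod (p ^ 2))
  set φ : ℤ[X] →+* AdjoinRoot G := (AdjoinRoot.mk G).comp (mapRingHom f) with hφ
  have hφF : φ F = 0 := by
    simp only [hφ, RingHom.comp_apply, coe_mapRingHom]
    exact AdjoinRoot.mk_self
  have hφp : φ (C ((p : ℤ) ^ 2)) = 0 := by
    have h1 : mapRingHom f (C ((p : ℤ) ^ 2)) = 0 := by
      rw [coe_mapRingHom, map_C]
      have h2 : f ((p : ℤ) ^ 2) = 0 := by
        rw [hf, eq_intCast]
        have h3 : ((p ^ 2 : ℕ) : ZMod (p ^ 2)) = 0 := ZMod.natCast_self _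
        push_cast at h3 ⊢
        exact h3
      rw [h2, C_0]
    rw [hφ, RingHom.comp_apply, h1, map_zero]
  have hunit : φ u * (φ a * (1 - φ (C (p : ℤ)) * φ c)) = 1 := by
    have h1 := congrArg φ habc
    rw [map_add, map_add, map_mul, map_mul, map_mul, map_one, hφF, zero_mul, add_zero] at h1
    have h2 : φ (C (p : ℤ)) * φ (C (p : ℤ)) = 0 := by
      rw [← map_mul, ← C_mul, ← pow_two, hφp]
    linear_combination (1 - φ (C (p : ℤ)) * φ c) * h1 - φ c * φ c * h2
  obtain ⟨v, hv⟩ : IsUnit (φ u) := IsUnit.of_mul_eq_one _ hunit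
  have hM : φ (u ^ Nat.card (AdjoinRoot G)ˣ) = 1 := by
    rw [map_pow, ← hv, ← Units.val_pow_eq_pow_val, pow_card_eq_one', Units.val_one]
  refine ⟨Nat.card (AdjoinRoot G)ˣ, Nat.card_pos, ?_⟩
  set M := Nat.card (AdjoinRoot G)ˣ with hMd
  have h1 : AdjoinRoot.mk G ((u ^ M - 1).map f) = 0 := by
    have h2 : φ (u ^ M - 1) = 0 := by rw [map_sub, hM, map_one, sub_self]
    simpa only [hφ, RingHom.comp_apply, coe_mapRingHom] using h2
  rw [AdjoinRoot.mk_eq_zero] at h1
  obtain ⟨B, hB⟩ := h1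
  obtain ⟨b', hb'⟩ := Polynomial.map_surjective f (by
    rw [hf]
    exact ZMod.intCast_surjective) B
  have h3 : C ((p : ℤ) ^ 2) ∣ u ^ M - 1 - F * b' := by
    rw [C_dvd_iff_dvd_coeff]
    intro i
    have h4 : (u ^ M - 1 - F * b').map f = 0 := by
      rw [Polynomial.map_sub, hB, Polynomial.map_mul, hb', hG, sub_self]
    have h5 := congrArg (fun P => coeff P i) h4
    simp only [coeff_map, coeff_zero] at h5
    rw [hf, eq_intCast, ZMod.intCast_zmod_eq_zero_iff_dvd] at h5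
    push_cast at h5
    exact h5
  obtain ⟨a', ha'⟩ := h3
  exact ⟨a', b', by linear_combination ha'⟩

end Pool.Agent.LUB.H52
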