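import Pool.Agent.LUB.Stmts
import Pool.Agent.Helper85_Leo.Strassman

/-!
# Squad LUB, row STR: a Strassman bound
-/

set_option autoImplicit false

namespace Pool.Agent.LUB.H52

open Pool.Agent.LUB
open Filter Topology

/-- an algebra homomorphism on power series is the evaluation -/
theorem hom_bound {p : ℕ} [Fact p.Prime] (g : PowerSeries ℤ_[p]) (z : ℤ_[p])
    (φ : PowerSeries ℤ_[p] →ₐ[ℤ_[p]] ℤ_[p]) (hφ : φ PowerSeries.X = z) (N : ℕ) :
    z ^ N ∣ φ g - ∑ k ∈ Finset.range N, PowerSeries.coeff k g * z ^ k := by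
  set P : PowerSeries ℤ_[p] := ∑ k ∈ Finset.range N, (PowerSeries.coeff k g) • PowerSeries.X ^ k
    with hP
  have h1 : φ P = ∑ k ∈ Finset.range N, PowerSeries.coeff k g * z ^ k := by
    rw [hP, map_sum]
    refine Finset.sum_congr rfl fun k _ => ?_
    rw [map_smul, map_pow, hφ, smul_eq_mul]
  have h2 : PowerSeries.X ^ N ∣ g - P := by
    rw [PowerSeries.X_pow_dvd_iff]
    intro m hm
    rw [map_sub, hP, map_sum, Finset.sum_eq_single m]
    · rw [PowerSeries.coeff_smul, PowerSeries.coeff_X_pow, if_pos rfl, smul_eq_mul, mul_one,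
        sub_self]
    · intro k _ hk
      rw [PowerSeries.coeff_smul, PowerSeries.coeff_X_pow, if_neg (Ne.symm hk), smul_zero]
    · intro h
      exact absurd (Finset.mem_range.mpr hm) h
  obtain ⟨h, hh⟩ := h2
  refine ⟨φ h, ?_⟩
  rw [← h1, ← map_sub, hh, map_mul, map_pow, hφ]

theorem str : StrStmt := by
  classical
  intro p hp g hg K hK Z hZ
  by_contra hcon
  rw [not_le] at hcon
  have hp1 : (1 : ℝ) < p := by exact_mod_cast hp.out.one_lt
  have hp0 : (0 : ℝ) < p := by linarith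
  -- division by `p`
  have hdiv : ∀ z : ℤ_[p], ∃ y : ℤ_[p], z ∈ Z → z = p * y := by
    intro z
    by_cases hz : z ∈ Z
    · obtain ⟨y, hy⟩ := PadicInt.norm_lt_one_iff_dvd z |>.mp (hZ z hz).1
      exact ⟨y, fun _ => hy⟩
    · exact ⟨0, fun h => absurd h hz⟩
  choose y hy using hdiv
  set Z' : Finset ℚ_[p] := Z.image (fun z => ((y z : ℤ_[p]) : ℚ_[p])) with hZ'
  have hcard : Z'.card = Z.card := by
    apply Finset.card_image_of_injOn
    intro z hz z' hz' h
    have h1 : y z = y z' := Subtype.ext h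
    rw [hy z hz, hy z' hz', h1]
  set a : ℕ → ℚ_[p] := fun k => ((PowerSeries.coeff k g : ℤ_[p]) : ℚ_[p]) * (p : ℚ_[p]) ^ k with ha
  have hnorm : ∀ k, ‖a k‖ = ‖PowerSeries.coeff k g‖ * ((p : ℝ)⁻¹) ^ k := by
    intro k
    simp only [ha]
    rw [norm_mul, norm_pow, Padic.norm_p, PadicInt.padic_norm_e_of_padicInt]
  have hs : Summable fun k => ‖a k‖ := by
    refine Summable.of_nonneg_of_le (fun _ => norm_nonneg _) (fun k => ?_)
      (summable_geometric_of_lt_one (inv_nonneg.mpr hp0.le) (inv_lt_one_of_one_lt₀ hp1))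
    rw [hnorm]
    exact mul_le_of_le_one_left (pow_nonneg (inv_nonneg.mpr hp0.le) k) (PadicInt.norm_le_one _)
  have hzero : ∀ w ∈ Z', ∑' k, a k * w ^ k = 0 := by
    intro w hw
    rw [hZ', Finset.mem_image] at hw
    obtain ⟨z, hz, rfl⟩ := hw
    obtain ⟨hz1, φ, hφ, hφg⟩ := hZ z hz
    have hterm : ∀ k, a k * ((y z : ℤ_[p]) : ℚ_[p]) ^ k =
        ((PowerSeries.coeff k g * z ^ k : ℤ_[p]) : ℚ_[p]) := by
      intro k
      simp only [ha]
      conv_rhs => rw [hy z hz]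
      push_cast
      ring
    have hsum : Summable fun k => a k * ((y z : ℤ_[p]) : ℚ_[p]) ^ k := by
      refine Summable.of_norm_bounded hs fun k => ?_
      rw [norm_mul, norm_pow, PadicInt.padic_norm_e_of_padicInt]
      exact mul_le_of_le_one_right (norm_nonneg _) (pow_le_one₀ (norm_nonneg _) (PadicInt.norm_le_one _))
    have h1 := hsum.hasSum.tendsto_sum_nat
    have h2 : Tendsto (fun N : ℕ => ∑ k ∈ Finset.range N, a k * ((y z : ℤ_[p]) : ℚ_[p]) ^ k) atTop
        (𝓝 0) := by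
      rw [tendsto_zero_iff_norm_tendsto_zero]
      refine squeeze_zero (fun _ => norm_nonneg _) (fun N => ?_)
        (tendsto_pow_atTop_nhds_zero_of_lt_one (norm_nonneg z) hz1)
      obtain ⟨c, hc⟩ := hom_bound g z φ hφ N
      rw [hφg, zero_sub] at hc
      have h3 : ∑ k ∈ Finset.range N, a k * ((y z : ℤ_[p]) : ℚ_[p]) ^ k =
          ((∑ k ∈ Finset.range N, PowerSeries.coeff k g * z ^ k : ℤ_[p]) : ℚ_[p]) := by
        rw [Finset.sum_congr rfl fun k _ => hterm k]
        exact (map_sum (PadicInt.Coe.ringHom (p := p)) (fun k => PowerSeries.coeff k g * z ^ k)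
          (Finset.range N)).symm
      rw [h3, PadicInt.padic_norm_e_of_padicInt, ← norm_neg, hc, norm_mul, norm_pow]
      exact mul_le_of_le_one_right (pow_nonneg (norm_nonneg _) _) (PadicInt.norm_le_one _)
    exact tendsto_nhds_unique h1 h2
  -- the maximum
  obtain ⟨l₀, hl₀, hmax⟩ := Finset.exists_max_image (Finset.range (K + 1)) (fun l => ‖a l‖)
    ⟨0, Finset.mem_range.mpr (Nat.succ_pos K)⟩
  have hb : ∀ k, Z'.card ≤ k → ‖a k‖ ≤ ‖a l₀‖ * (p : ℝ)⁻¹ := by
    intro k hk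
    rw [hcard] at hk
    obtain ⟨l, hl, hle⟩ := hK k
    have h1 := hmax l (Finset.mem_range.mpr (by omega))
    have h2 : ‖a k‖ ≤ ‖a l‖ * (p : ℝ)⁻¹ := by
      rw [hnorm, hnorm]
      have h3 : ((p : ℝ)⁻¹) ^ k ≤ ((p : ℝ)⁻¹) ^ (l + 1) :=
        pow_le_pow_of_le_one (inv_nonneg.mpr hp0.le) (inv_le_one_of_one_le₀ hp1.le) (by omega)
      calc ‖PowerSeries.coeff k g‖ * ((p : ℝ)⁻¹) ^ k
          ≤ ‖PowerSeries.coeff l g‖ * ((p : ℝ)⁻¹) ^ (l + 1) :=
            mul_le_mul hle h3 (pow_nonneg (inv_nonneg.mpr hp0.le) k) (norm_nonneg _)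
        _ = ‖PowerSeries.coeff l g‖ * ((p : ℝ)⁻¹) ^ l * (p : ℝ)⁻¹ := by ring
    exact h2.trans (mul_le_mul_of_nonneg_right h1 (inv_nonneg.mpr hp0.le))
  have hall := Pool.Agent.Helper85_Leo.strassman Z' (by
    intro w hw
    rw [hZ', Finset.mem_image] at hw
    obtain ⟨z, _, rfl⟩ := hw
    rw [PadicInt.padic_norm_e_of_padicInt]
    exact PadicInt.norm_le_one _) a hs hzero
    (mul_nonneg (norm_nonneg (a l₀)) (inv_nonneg.mpr hp0.le)) hb
  have hm := hall l₀
  have hinv : (p : ℝ)⁻¹ < 1 := inv_lt_one_of_one_lt₀ hp1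
  have hm0 : ‖a l₀‖ = 0 := by
    have h1 := norm_nonneg (a l₀)
    nlinarith
  apply hg
  ext i
  have h1 := hall i
  rw [hm0, zero_mul] at h1
  have h2 : a i = 0 := norm_le_zero_iff.mp h1
  simp only [ha] at h2
  rcases mul_eq_zero.mp h2 with h3 | h3
  · have h4 : PowerSeries.coeff i g = 0 := by
      apply Subtype.ext
      exact h3
    rw [h4, map_zero]
  · exfalso
    have h5 : ((p : ℕ) : ℚ_[p]) ≠ 0 := by
      exact_mod_cast hp.out.ne_zero
    exact pow_ne_zero i h5 h3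

end Pool.Agent.LUB.H52
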